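import Pool.Agent.W627.LT.Stm

set_option autoImplicit false

namespace Pool.Agent.W829.LT

open Filter

lemma choose_lower (k : ℕ) : ∀ s : ℕ, 1 ≤ k → k ≤ s →
    ((s : ℝ) / k) ^ k ≤ (s.choose k : ℝ) := by
  induction k with
  | zero => intro s h; omega
  | succ k ih =>
    intro s _ hks
    obtain ⟨n, rfl⟩ : ∃ n, s = n + 1 := ⟨s - 1, by omega⟩
    have h1 : ((n + 1 : ℕ) : ℝ) * (n.choose k : ℝ)
        = ((n + 1).choose (k + 1) : ℝ) * ((k + 1 : ℕ) : ℝ) := by
      exact_mod_cast Nat.add_one_mul_choose_eq n k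
    have hk0 : (0 : ℝ) < ((k + 1 : ℕ) : ℝ) := by positivity
    have h2 : ((n + 1).choose (k + 1) : ℝ)
        = ((n + 1 : ℕ) : ℝ) / ((k + 1 : ℕ) : ℝ) * (n.choose k : ℝ) := by
      field_simp
      linarith
    rw [h2, pow_succ, mul_comm]
    apply mul_le_mul_of_nonneg_left _ (by positivity)
    rcases Nat.eq_zero_or_pos k with h0 | h0
    · subst h0; simp
    · have hn : k ≤ n := by omega
      refine le_trans ?_ (ih n h0 hn)
      apply pow_le_pow_left₀ (by positivity)
      rw [div_le_div_iff₀ hk0 (by exact_mod_cast h0)]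
      push_cast
      have : (k : ℝ) ≤ n := by exact_mod_cast hn
      nlinarith


lemma aux_quart {X : ℝ} (h : 4 ≤ X) : 4 * X ^ 2 ≤ X ^ 4 := by
  nlinarith [mul_nonneg (sq_nonneg X) (show 0 ≤ X ^ 2 - 4 by nlinarith)]

lemma aux_cube {X : ℝ} (h : 4 ≤ X) : 4 * X ^ 2 ≤ X ^ 3 := by
  nlinarith [mul_nonneg (sq_nonneg X) (show 0 ≤ X - 4 by linarith)]

lemma aux_mul {a b : ℝ} (ha : 0 < a) (hb : 1 ≤ b) : a ≤ a * b := by
  nlinarith

/-- `D ≤ a`, `a ≤ b ≤ c`, `1 ≤ e` imply `D ≤ 4 c e`. -/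
lemma aux_four {D a b c e : ℝ} (h1 : D ≤ a) (h2 : a ≤ b) (h3 : b ≤ c) (h4 : 1 ≤ e)
    (h5 : 0 ≤ c) : D ≤ 4 * c * e := by
  have : c ≤ c * e := le_mul_of_one_le_right h5 h4
  nlinarith

lemma aux_prod {w e E0 F : ℝ} (h1 : 4 * e ≤ E0) (h3 : E0 ≤ F) (h4 : 0 ≤ w) :
    4 * w * e ≤ F * w := by
  have : 4 * e * w ≤ F * w := mul_le_mul_of_nonneg_right (h1.trans h3) h4
  linarith

lemma aux_lt {a c e D M : ℝ} (h3 : a ≤ c) (h4 : 1 ≤ e) (h5 : 0 ≤ c) (h6 : 4 * c * e < D)
    (h7 : D ≤ M) : a ≤ M := by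
  have : c ≤ c * e := le_mul_of_one_le_right h5 h4
  nlinarith

lemma aux_k {k l A L : ℝ} (h2 : k * (A / 2 * l) ≤ 3 / 2 * L) :
    k * (2 * l) * A ≤ 6 * L := by
  linarith

lemma aux_sq {L : ℝ} (h : 60 ≤ L) : 30 * L ≤ L ^ 2 := by nlinarith

set_option maxHeartbeats 4000000 in
theorem lta : Pool.Agent.W627.LT.S_A := by
  intro C ε hC hε
  refine ⟨max 2 (24 / ε), le_trans (by norm_num) (le_max_left _ _), ?_⟩
  intro A hA
  have hA2 : 2 ≤ A := le_trans (le_max_left _ _) hA
  have hAε : 24 / ε ≤ A := le_trans (le_max_right _ _) hA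
  have hA0 : 0 < A := by linarith
  set E0 : ℝ := 4 * Real.exp (3 / ε + 1) with hE0
  have hE0one : 1 ≤ E0 := by
    have : 1 ≤ Real.exp (3 / ε + 1) := Real.one_le_exp (by positivity)
    rw [hE0]; linarith
  have hE0pos : 0 < E0 := by linarith
  -- eventual facts
  have e1 : ∀ᶠ X : ℝ in atTop, 4 ≤ X := eventually_ge_atTop 4
  have e2 : ∀ᶠ X : ℝ in atTop, 60 ≤ Real.log X :=
    Real.tendsto_log_atTop.eventually_ge_atTop 60
  have e3 : ∀ᶠ X : ℝ in atTop, 4 * C * Real.log X ≤ X ^ (ε / 2) := by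
    have h := (isLittleO_log_rpow_atTop (show 0 < ε / 2 by positivity)).def
      (show (0 : ℝ) < 1 / (4 * C) by positivity)
    filter_upwards [h, eventually_ge_atTop (4 : ℝ)] with X hX h4
    have hl : 0 ≤ Real.log X := Real.log_nonneg (by linarith)
    have hp : 0 ≤ X ^ (ε / 2) := by positivity
    rw [Real.norm_of_nonneg hl, Real.norm_of_nonneg hp] at hX
    have h4C : 0 < 4 * C := by positivity
    calc 4 * C * Real.log X ≤ 4 * C * (1 / (4 * C) * X ^ (ε / 2)) :=
          mul_le_mul_of_nonneg_left hX h4C.le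
      _ = X ^ (ε / 2) := by field_simp
  have e4 : ∀ᶠ X : ℝ in atTop, E0 ≤ X ^ ε :=
    (tendsto_rpow_atTop hε).eventually_ge_atTop E0
  have e5 : ∀ᶠ X : ℝ in atTop, Real.log X ^ A ≤ X ^ (ε / 8) := by
    have h := (isLittleO_log_rpow_rpow_atTop A (show 0 < ε / 8 by positivity)).def
      (show (0 : ℝ) < 1 by norm_num)
    filter_upwards [h, eventually_ge_atTop (4 : ℝ)] with X hX h4
    have hl : 0 ≤ Real.log X := Real.log_nonneg (by linarith)
    have hp : 0 ≤ X ^ (ε / 8) := by positivity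
    rw [Real.norm_of_nonneg (Real.rpow_nonneg hl A), Real.norm_of_nonneg hp, one_mul] at hX
    exact hX
  have e6 : ∀ᶠ X : ℝ in atTop, 4 * C * E0 * Real.log X ≤ X ^ (ε / 8) := by
    have h := (isLittleO_log_rpow_atTop (show 0 < ε / 8 by positivity)).def
      (show (0 : ℝ) < 1 / (4 * C * E0) by positivity)
    filter_upwards [h, eventually_ge_atTop (4 : ℝ)] with X hX h4
    have hl : 0 ≤ Real.log X := Real.log_nonneg (by linarith)
    have hp : 0 ≤ X ^ (ε / 8) := by positivity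
    rw [Real.norm_of_nonneg hl, Real.norm_of_nonneg hp] at hX
    have h4C : 0 < 4 * C * E0 := by positivity
    calc 4 * C * E0 * Real.log X ≤ 4 * C * E0 * (1 / (4 * C * E0) * X ^ (ε / 8)) :=
          mul_le_mul_of_nonneg_left hX h4C.le
      _ = X ^ (ε / 8) := by field_simp
  obtain ⟨X1, hX1⟩ := eventually_atTop.1
    (e1.and (e2.and (e3.and (e4.and (e5.and e6)))))
  refine ⟨max 3 X1, le_max_left _ _, ?_⟩
  intro X hX D s l T hD2 hDX hl1 hT0 hT hs hk
  obtain ⟨f1, f2, f3, f4, f5, f6⟩ := hX1 X (le_trans (le_max_right _ _) hX)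
  set L := Real.log X with hL
  set y := ⌊L ^ A⌋₊ with hy
  have hX0 : 0 < X := by linarith
  have hX1' : 1 ≤ X := by linarith
  have hDr : (2 : ℝ) ≤ (D : ℝ) := by exact_mod_cast hD2
  have hDpos : (0 : ℝ) < (D : ℝ) := by linarith
  have hlr : (1 : ℝ) ≤ (l : ℝ) := by exact_mod_cast hl1
  have hlpos : (0 : ℝ) < (l : ℝ) := by linarith
  have hlogD : Real.log D ≤ 4 * L := by
    have h1 : (D : ℝ) ≤ X ^ 4 := by
      exact hDX.trans (aux_quart f1)
    have h2 := Real.log_le_log hDpos h1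
    rw [Real.log_pow] at h2
    exact_mod_cast h2
  have hlogD0 : 0 ≤ Real.log D := Real.log_nonneg (by linarith)
  set P := (D : ℝ) ^ (1 / 2 - 1 / (2 * l) : ℝ) with hP
  set R := (D : ℝ) ^ (1 / (2 * l) : ℝ) with hR
  have hPpos : 0 < P := Real.rpow_pos_of_pos hDpos _
  have hRpos : 0 < R := Real.rpow_pos_of_pos hDpos _
  have hPR : √(D : ℝ) = P * R := by
    rw [hP, hR, ← Real.rpow_add hDpos, Real.sqrt_eq_rpow]
    congr 1
    ring
  have hR2l : R ^ (2 * l) = (D : ℝ) := by
    rw [hR, ← Real.rpow_natCast, ← Real.rpow_mul hDpos.le]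
    push_cast
    rw [one_div, inv_mul_cancel₀ (by positivity), Real.rpow_one]
  by_cases hcase : R ≤ X ^ (ε / 2)
  · calc T ≤ C * √(D : ℝ) * Real.log D := hT
      _ = C * (P * R) * Real.log D := by rw [hPR]
      _ ≤ C * (P * X ^ (ε / 2)) * (4 * L) := by gcongr
      _ = P * X ^ (ε / 2) * (4 * C * L) := by ring
      _ ≤ P * X ^ (ε / 2) * X ^ (ε / 2) := by gcongr
      _ = P * X ^ ε := by
        rw [mul_assoc, ← Real.rpow_add hX0]; congr 2; ring
  · push Not at hcase
    have hDX3 : (D : ℝ) ≤ X ^ 3 := by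
      exact hDX.trans (aux_cube f1)
    have hXl : X ^ (ε * l) < (D : ℝ) := by
      have h1 : (X ^ (ε / 2)) ^ (2 * l) < R ^ (2 * l) :=
        pow_lt_pow_left₀ hcase (by positivity) (by omega)
      rw [hR2l, ← Real.rpow_natCast, ← Real.rpow_mul hX0.le] at h1
      push_cast at h1
      have h2 : ε / 2 * (2 * (l : ℝ)) = ε * l := by ring
      rwa [h2] at h1
    have hl3 : ε * l < 3 := by
      have h1 : X ^ (ε * l) < X ^ (3 : ℝ) := by
        refine hXl.trans_le (hDX3.trans (le_of_eq ?_))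
        exact_mod_cast (Real.rpow_natCast X 3).symm
      exact (Real.rpow_lt_rpow_left_iff (by linarith)).1 h1
    have hl3' : (l : ℝ) ≤ 3 / ε := by
      rw [le_div_iff₀ hε]; linarith
    have hE : 4 * Real.exp (l + 1) ≤ E0 := by
      rw [hE0]
      have : Real.exp ((l : ℝ) + 1) ≤ Real.exp (3 / ε + 1) := Real.exp_le_exp.2 (by linarith)
      linarith
    have hED : 4 * Real.exp (l + 1) < D := by
      refine hE.trans_lt (f4.trans_lt (lt_of_le_of_lt ?_ hXl))
      exact Real.rpow_le_rpow_of_exponent_le hX1' (aux_mul hε hlr)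
    -- size of y
    have hL60 : 60 ≤ L := f2
    have hLpos : 0 < L := by linarith
    have hLA : L ^ 2 ≤ L ^ A := by
      have := Real.rpow_le_rpow_of_exponent_le (show 1 ≤ L by linarith) hA2
      rwa [Real.rpow_two] at this
    have hyle : (y : ℝ) ≤ L ^ A := Nat.floor_le (by positivity)
    have hyge : L ^ A / 2 ≤ (y : ℝ) := by
      have h1 := Nat.lt_floor_add_one (L ^ A)
      have h2 : 2 ≤ L ^ A := by
        have h60 : 60 * L ≤ L ^ 2 := by
          rw [pow_two]; exact mul_le_mul_of_nonneg_right hL60 hLpos.le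
        linarith
      have h3 : L ^ A < (y : ℝ) + 1 := h1
      linarith
    have h60L : 60 * L ≤ L ^ 2 := by
      rw [pow_two]; exact mul_le_mul_of_nonneg_right hL60 hLpos.le
    have hy30 : 30 * L ≤ y := by linarith
    have hy2 : (2 : ℝ) ≤ y := by linarith
    have hypos : (0 : ℝ) < y := by linarith
    have hlogL : 0 < Real.log L := Real.log_pos (by linarith)
    have hlog2 : Real.log 2 ≤ Real.log L := Real.log_le_log (by norm_num) (by linarith)
    have hlogy : A / 2 * Real.log L ≤ Real.log y := by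
      have h1 : Real.log (L ^ A / 2) ≤ Real.log y := Real.log_le_log (by positivity) hyge
      rw [Real.log_div (by positivity) (by norm_num), Real.log_rpow hLpos] at h1
      have h2 : 1 * Real.log L ≤ A / 2 * Real.log L :=
        mul_le_mul_of_nonneg_right (by linarith) hlogL.le
      linarith
    have hlogypos : 0 < Real.log y := lt_of_lt_of_le (by positivity) hlogy
    have hlog30 : Real.log (30 * L) ≤ 2 * Real.log L := by
      have h1 : Real.log (30 * L) ≤ Real.log (L ^ 2) :=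
        Real.log_le_log (by positivity) (aux_sq hL60)
      rw [Real.log_pow] at h1
      exact_mod_cast h1
    -- the maximal k
    have hexk : ∃ k : ℕ, ¬ (4 * ((y : ℝ) ^ (2 * k)) ^ l * Real.exp (l + 1) < D) := by
      refine ⟨D, ?_⟩
      push Not
      have h1 : (D : ℝ) ≤ 2 ^ D := by exact_mod_cast (Nat.lt_two_pow_self (n := D)).le
      have h2 : (2 : ℝ) ^ D ≤ (y : ℝ) ^ (2 * D) := by
        calc (2 : ℝ) ^ D ≤ (y : ℝ) ^ D := pow_le_pow_left₀ (by norm_num) hy2 D
          _ ≤ (y : ℝ) ^ (2 * D) := pow_le_pow_right₀ (by linarith) (by omega)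
      have h3 : (y : ℝ) ^ (2 * D) ≤ ((y : ℝ) ^ (2 * D)) ^ l :=
        le_self_pow₀ (one_le_pow₀ (by linarith)) (by omega)
      have h4 : 1 ≤ Real.exp ((l : ℝ) + 1) := Real.one_le_exp (by positivity)
      have h5 : 0 ≤ ((y : ℝ) ^ (2 * D)) ^ l := by positivity
      exact aux_four h1 h2 h3 h4 h5
    classical
    set k0 := Nat.find hexk with hk0
    have hk0spec := Nat.find_spec hexk
    have hk0ne : k0 ≠ 0 := by
      intro h0
      rw [← hk0, h0] at hk0spec
      apply hk0spec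
      simpa using hED
    obtain ⟨k, hkk⟩ : ∃ k, k0 = k + 1 := Nat.exists_eq_succ_of_ne_zero hk0ne
    have hka : 4 * ((y : ℝ) ^ (2 * k)) ^ l * Real.exp (l + 1) < D := by
      have h := Nat.find_min hexk (m := k) (by omega)
      exact not_not.1 h
    have hkb : (D : ℝ) ≤ 4 * ((y : ℝ) ^ (2 * (k + 1))) ^ l * Real.exp (l + 1) := by
      rw [← hk0, hkk] at hk0spec
      exact not_lt.1 hk0spec
    have hTk := hk k hka
    -- bound for R
    have hRle : R ≤ E0 * (y : ℝ) ^ (k + 1) := by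
      have h2l : 2 * l ≠ 0 := by omega
      apply le_of_pow_le_pow_left₀ h2l (by positivity)
      rw [hR2l, mul_pow]
      have h1 : ((y : ℝ) ^ (2 * (k + 1))) ^ l = ((y : ℝ) ^ (k + 1)) ^ (2 * l) := by
        rw [← pow_mul, ← pow_mul]; congr 1; ring
      rw [h1] at hkb
      refine hkb.trans ?_
      have h3 : E0 ≤ E0 ^ (2 * l) := le_self_pow₀ hE0one h2l
      have h4 : 0 ≤ ((y : ℝ) ^ (k + 1)) ^ (2 * l) := by positivity
      exact aux_prod hE h3 h4
    -- bound for k
    have hklog : (k : ℝ) * Real.log y ≤ 3 / 2 * L := by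
      have h1 : (y : ℝ) ^ (2 * k) ≤ X ^ 3 := by
        have h3 : (y : ℝ) ^ (2 * k) ≤ ((y : ℝ) ^ (2 * k)) ^ l :=
          le_self_pow₀ (one_le_pow₀ (by linarith)) (by omega)
        have h4 : 1 ≤ Real.exp ((l : ℝ) + 1) := Real.one_le_exp (by positivity)
        have h5 : 0 ≤ ((y : ℝ) ^ (2 * k)) ^ l := by positivity
        exact aux_lt h3 h4 h5 hka hDX3
      have h2 := Real.log_le_log (by positivity) h1
      rw [Real.log_pow, Real.log_pow] at h2
      push_cast at h2
      linarith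
    -- lower bound of the binomial coefficient
    have hyk : (y : ℝ) * k ≤ 30 * L * s := by
      have h1 : (y : ℝ) * k * Real.log y ≤ (y : ℝ) * (3 / 2 * L) := by
        rw [mul_assoc]; exact mul_le_mul_of_nonneg_left hklog hypos.le
      have h2 : (y : ℝ) ≤ s * (20 * Real.log y) := by
        rwa [div_le_iff₀ (by positivity)] at hs
      have h3 : (y : ℝ) * k * Real.log y ≤ 30 * L * s * Real.log y := by
        calc (y : ℝ) * k * Real.log y ≤ (y : ℝ) * (3 / 2 * L) := h1
          _ ≤ s * (20 * Real.log y) * (3 / 2 * L) := by gcongr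
          _ = 30 * L * s * Real.log y := by ring
      exact le_of_mul_le_mul_right h3 hlogypos
    have hks : k ≤ s := by
      have h1 : (y : ℝ) * k ≤ y * s := hyk.trans (by gcongr)
      exact_mod_cast le_of_mul_le_mul_left h1 hypos
    have hchpos : (0 : ℝ) < (s.choose k : ℝ) := by exact_mod_cast Nat.choose_pos hks
    have hch : (y : ℝ) ^ k ≤ (s.choose k : ℝ) * (30 * L) ^ k := by
      rcases Nat.eq_zero_or_pos k with h0 | h0
      · rw [h0]; simp
      · have hkr : (0 : ℝ) < k := by exact_mod_cast h0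
        have h1 : (y : ℝ) ≤ (s : ℝ) / k * (30 * L) := by
          rw [div_mul_eq_mul_div, le_div_iff₀ hkr]; linarith
        calc (y : ℝ) ^ k ≤ ((s : ℝ) / k * (30 * L)) ^ k := pow_le_pow_left₀ hypos.le h1 k
          _ = ((s : ℝ) / k) ^ k * (30 * L) ^ k := mul_pow _ _ _
          _ ≤ (s.choose k : ℝ) * (30 * L) ^ k := by
            gcongr
            exact choose_lower k s h0 hks
    have h30k : (30 * L) ^ k ≤ X ^ (ε / 4) := by
      rw [← Real.log_le_log_iff (by positivity) (by positivity), Real.log_pow,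
        Real.log_rpow hX0]
      have h1 : (k : ℝ) * Real.log (30 * L) ≤ k * (2 * Real.log L) := by gcongr
      have h2 : (k : ℝ) * (A / 2 * Real.log L) ≤ 3 / 2 * L :=
        le_trans (mul_le_mul_of_nonneg_left hlogy (by positivity)) hklog
      have h3 : 24 ≤ A * ε := by rwa [div_le_iff₀ hε] at hAε
      have h4 : (k : ℝ) * (2 * Real.log L) * A ≤ 6 * L := aux_k h2
      have h5 : 0 ≤ (k : ℝ) * (2 * Real.log L) := by positivity
      have h6 : (k : ℝ) * (2 * Real.log L) * 24 ≤ ε * (6 * L) := by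
        calc (k : ℝ) * (2 * Real.log L) * 24 ≤ (k : ℝ) * (2 * Real.log L) * (A * ε) := by gcongr
          _ = ε * ((k : ℝ) * (2 * Real.log L) * A) := by ring
          _ ≤ ε * (6 * L) := by gcongr
      have h7 : ε / 4 * Real.log X = ε / 4 * L := rfl
      rw [h7]
      linarith
    -- conclusion
    have hfin : T * (s.choose k : ℝ) ≤ (P * X ^ ε) * (s.choose k : ℝ) := by
      calc T * (s.choose k : ℝ) ≤ C * √(D : ℝ) * Real.log D := hTk
        _ = C * (P * R) * Real.log D := by rw [hPR]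
        _ ≤ C * (P * (E0 * (y : ℝ) ^ (k + 1))) * (4 * L) := by gcongr
        _ = P * (4 * C * E0 * L) * y * (y : ℝ) ^ k := by rw [pow_succ]; ring
        _ ≤ P * X ^ (ε / 8) * X ^ (ε / 8) * ((s.choose k : ℝ) * X ^ (ε / 4)) := by
          have hy8 : (y : ℝ) ≤ X ^ (ε / 8) := hyle.trans f5
          have hyk' : (y : ℝ) ^ k ≤ (s.choose k : ℝ) * X ^ (ε / 4) :=
            hch.trans (by gcongr)
          have hLC : 4 * C * E0 * L ≤ X ^ (ε / 8) := f6
          gcongr
        _ = P * (X ^ (ε / 8) * X ^ (ε / 8) * X ^ (ε / 4)) * (s.choose k : ℝ) := by ring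
        _ = P * X ^ (ε / 2) * (s.choose k : ℝ) := by
          rw [← Real.rpow_add hX0, ← Real.rpow_add hX0]
          congr 3; ring
        _ ≤ P * X ^ ε * (s.choose k : ℝ) := by
          have : X ^ (ε / 2) ≤ X ^ ε := Real.rpow_le_rpow_of_exponent_le hX1' (by linarith)
          gcongr
    exact le_of_mul_le_mul_right hfin hchpos

end Pool.Agent.W829.LT
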